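import Mathlib

/-!
# Colourings of the positive integers at a prime (helper file for MP_13469d_co, helper86)

The definitions (Rado's condition, `c a`, `Bound a r`), the colouring of the valuations, cells of residues, and the bound
for tuples whose subset sums cancel by at most `g` digits at the prime `p`.
-/

namespace Pool.Agent.RadoB

open Finset

/-- Rado's condition: some nonempty subset of the coefficients has sum zero. -/
def RadoCondition {k : ℕ} (a : Fin k → ℤ) : Prop :=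
  ∃ I : Finset (Fin k), I.Nonempty ∧ ∑ i ∈ I, a i = 0

/-- The colouring `χ` has a monochromatic solution of `a₁ x₁ + ... + a_k x_k = 0`. -/
def HasMonoSol {k r : ℕ} (a : Fin k → ℤ) (χ : ℕ+ → Fin r) : Prop :=
  ∃ x : Fin k → ℕ+, (∀ i j, χ (x i) = χ (x j)) ∧ ∑ i, a i * ((x i : ℕ) : ℤ) = 0

/-- `c(a₁, ..., a_k)`: the least number of colours of a colouring without monochromatic
solution. -/
noncomputable def c {k : ℕ} (a : Fin k → ℤ) : ℕ :=
  sInf {r : ℕ | ∃ χ : ℕ+ → Fin r, ¬ HasMonoSol a χ}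

/-- `c a ≤ r`, and a colouring with `c a` colours without monochromatic solution exists. -/
def Bound {k : ℕ} (a : Fin k → ℤ) (r : ℕ) : Prop :=
  c a ≤ r ∧ ∃ χ : ℕ+ → Fin (c a), ¬ HasMonoSol a χ

lemma Bound.mono {k : ℕ} {a : Fin k → ℤ} {r r' : ℕ} (h : Bound a r) (hr : r ≤ r') : Bound a r' :=
  ⟨h.1.trans hr, h.2⟩

/-- a colouring by a finite type. -/
lemma bound_of {k : ℕ} {a : Fin k → ℤ} {α : Type} [Fintype α] (χ : ℕ → α)
    (h : ∀ x : Fin k → ℕ, (∀ i, 0 < x i) → (∀ i j, χ (x i) = χ (x j)) → ∑ i, a i * (x i : ℤ) ≠ 0) :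
    Bound a (Fintype.card α) := by
  have h1 : (Fintype.card α) ∈ {r : ℕ | ∃ χ : ℕ+ → Fin r, ¬ HasMonoSol a χ} := by
    refine ⟨fun n => Fintype.equivFin α (χ n), ?_⟩
    rintro ⟨x, hx, hs⟩
    refine h (fun i => (x i : ℕ)) (fun i => (x i).pos) (fun i j => ?_) hs
    exact (Fintype.equivFin α).injective (hx i j)
  exact ⟨Nat.sInf_le h1, Nat.sInf_mem ⟨_, h1⟩⟩

/-! ### forbidden differences -/

/-- two colours for every difference. -/
def bits {ι : Type} (D : ι → ℤ) (V : ℕ) : ι → Bool := fun s => decide ((V / (D s).natAbs) % 2 = 0)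

lemma bits_ne {ι : Type} {D : ι → ℤ} {V V' : ℕ} (h : bits D V = bits D V') {s : ι} (hs : D s ≠ 0) :
    (V : ℤ) - V' ≠ D s := by
  intro h1
  have h2 := congrFun h s
  simp only [bits, decide_eq_decide] at h2
  obtain ⟨d, hd⟩ : ∃ d : ℕ, d = (D s).natAbs := ⟨_, rfl⟩
  have hd0 : 0 < d := by omega
  rw [← hd] at h2
  rcases le_total V' V with h3 | h3
  · have e : V = V' + d := by omega
    rw [e, Nat.add_div_right _ hd0] at h2
    omega
  · have e : V' = V + d := by omega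
    rw [e, Nat.add_div_right _ hd0] at h2
    omega

/-! ### cells -/

/-- the cell of `y` modulo `q`. -/
def cell (N q : ℕ) [NeZero N] (y : ℤ) : Fin N := Fin.ofNat N ((N * (y % q) / q).toNat)

lemma cell_close {N q : ℕ} [NeZero N] (hq : 0 < q) {y z : ℤ} (h : cell N q y = cell N q z) :
    |y % q - z % q| * N < q := by
  have hq' : (0 : ℤ) < q := by exact_mod_cast hq
  have hN : 0 < N := Nat.pos_of_ne_zero (NeZero.ne N)
  have hN' : (0 : ℤ) < N := by exact_mod_cast hN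
  have key : ∀ y : ℤ, 0 ≤ (N * (y % q) / q : ℤ) ∧ (N * (y % q) / q : ℤ) < N := by
    intro y
    have h1 := Int.emod_nonneg y hq'.ne'
    have h2 := Int.emod_lt_of_pos y hq'
    refine ⟨Int.ediv_nonneg (by positivity) hq'.le, ?_⟩
    apply Int.ediv_lt_of_lt_mul hq'
    exact mul_lt_mul_of_pos_left h2 hN'
  have h3 : (N * (y % q) / q : ℤ) = N * (z % q) / q := by
    have h4 := congrArg Fin.val h
    simp only [cell, Fin.val_ofNat] at h4
    obtain ⟨a1, a2⟩ := key y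
    obtain ⟨b1, b2⟩ := key z
    rw [Nat.mod_eq_of_lt (by omega), Nat.mod_eq_of_lt (by omega)] at h4
    omega
  have h5 := Int.mul_ediv_add_emod (N * (y % q)) q
  have h6 := Int.mul_ediv_add_emod (N * (z % q)) q
  have h7 := Int.emod_nonneg (N * (y % q)) hq'.ne'
  have h8 := Int.emod_lt_of_pos (N * (y % q)) hq'
  have h9 := Int.emod_nonneg (N * (z % q)) hq'.ne'
  have h10 := Int.emod_lt_of_pos (N * (z % q)) hq'
  rw [h3] at h5
  have h11 : |y % q - z % q| * N = |N * (y % q) - N * (z % q)| := by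
    rw [← mul_sub, abs_mul, abs_of_pos hN', mul_comm]
  rw [h11, abs_lt]
  constructor <;> linarith

/-- The key step: sums in equal cells. -/
lemma cell_sum {ι : Type} {N q : ℕ} [NeZero N] (hq : 0 < q) {J : Finset ι} (hJ : J.Nonempty) {y z : ι → ℤ}
    (h : ∀ i ∈ J, cell N q (y i) = cell N q (z i)) :
    ∃ R : ℤ, |R| * N < J.card * q ∧ (q : ℤ) ∣ (∑ i ∈ J, z i + R) - ∑ i ∈ J, y i := by
  refine ⟨∑ i ∈ J, (y i % q - z i % q), ?_, ?_⟩
  · calc |∑ i ∈ J, (y i % q - z i % q)| * N ≤ (∑ i ∈ J, |y i % q - z i % q|) * N :=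
        mul_le_mul_of_nonneg_right (abs_sum_le_sum_abs _ _) (by positivity)
      _ = ∑ i ∈ J, |y i % q - z i % q| * N := by rw [sum_mul]
      _ < ∑ i ∈ J, (q : ℤ) := sum_lt_sum_of_nonempty hJ fun i hi => cell_close hq (h i hi)
      _ = J.card * q := by rw [sum_const, nsmul_eq_mul]
  · have e : (∑ i ∈ J, z i + ∑ i ∈ J, (y i % q - z i % q)) - ∑ i ∈ J, y i =
        ∑ i ∈ J, ((z i - z i % q) - (y i - y i % q)) := by
      simp only [sum_sub_distrib]
      ring
    rw [e]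
    apply dvd_sum
    intro i _
    exact dvd_sub (Int.dvd_self_sub_emod) (Int.dvd_self_sub_emod)

/-- the colours. -/
abbrev Col (k m N : ℕ) : Type := (Fin k × Fin k × Fin (m + 1) → Bool) × (Finset (Fin k) → Fin k → Fin N)

lemma sum_ne {k : ℕ} {a : Fin k → ℤ} (ha : ¬ RadoCondition a) {J : Finset (Fin k)} (hJ : J.Nonempty) :
    ∑ i ∈ J, a i ≠ 0 := fun h => ha ⟨J, hJ, h⟩

lemma coeff_ne {k : ℕ} {a : Fin k → ℤ} (ha : ¬ RadoCondition a) (i : Fin k) : a i ≠ 0 := by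
  have h := sum_ne ha (singleton_nonempty i)
  rwa [sum_singleton] at h

/-! ### a finite place -/

section Prime

/-- The part of `x` prime to `p`. -/
def unit (p x : ℕ) : ℕ := x / p ^ padicValNat p x

lemma pow_mul_unit (p x : ℕ) : p ^ padicValNat p x * unit p x = x :=
  Nat.mul_div_cancel' pow_padicValNat_dvd

lemma not_dvd_unit (p : ℕ) [hp : Fact p.Prime] {x : ℕ} (hx : x ≠ 0) : ¬ p ∣ unit p x := by
  intro h
  apply pow_succ_padicValNat_not_dvd (p := p) hx
  rw [pow_succ]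
  conv_rhs => rw [← pow_mul_unit p x]
  exact Nat.mul_dvd_mul_left _ h

/-- no proper subset sum cancels by more than `K` digits at the prime `p`. -/
def PrimeGood {k : ℕ} (p K : ℕ) (a : Fin k → ℤ) : Prop :=
  ∀ J : Finset (Fin k), J.Nonempty → J ≠ univ → ∀ i ∈ J,
    padicValInt p (∑ j ∈ J, a j) ≤ padicValInt p (a i) + K

theorem prime_place {k : ℕ} (hk : 0 < k) {p : ℕ} (hp : p.Prime) {g : ℕ} {a : Fin k → ℤ}
    (ha : ¬ RadoCondition a) (hg : PrimeGood p g a) : Bound a (Fintype.card (Col k g (k * p))) := by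
  have : Fact p.Prime := ⟨hp⟩
  have : NeZero (k * p) := ⟨(Nat.mul_pos hk hp.pos).ne'⟩
  have : Nonempty (Fin k) := ⟨⟨0, hk⟩⟩
  obtain ⟨v, hv⟩ : ∃ v : Fin k → ℕ, v = fun i => padicValInt p (a i) := ⟨_, rfl⟩
  obtain ⟨σ, hσ⟩ : ∃ σ : Finset (Fin k) → ℕ, σ = fun J => padicValInt p (∑ j ∈ J, a j) := ⟨_, rfl⟩
  refine bound_of (fun x => (bits (fun s : Fin k × Fin k × Fin (g + 1) =>
      ((v s.2.1 : ℤ) - v s.1 + (s.2.2 : ℕ))) (padicValNat p x),
    fun J i => cell (k * p) (p ^ (σ J + 1)) (a i * (unit p x : ℤ)))) ?_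
  intro x hx hχ hsum
  obtain ⟨V, hV⟩ : ∃ V : Fin k → ℕ, V = fun i => padicValNat p (x i) := ⟨_, rfl⟩
  obtain ⟨j, -, hj⟩ := exists_min_image univ (fun i => v i + V i) univ_nonempty
  obtain ⟨J, hJ⟩ : ∃ J : Finset (Fin k), J = univ.filter (fun i => V i = V j) := ⟨_, rfl⟩
  have memJ : ∀ i, i ∈ J ↔ V i = V j := by
    intro i
    rw [hJ, mem_filter]
    simp
  have hjJ : j ∈ J := (memJ j).2 rfl
  have hJn : J.Nonempty := ⟨j, hjJ⟩
  have hs0 := sum_ne ha hJn
  have hxV : ∀ i, (x i : ℤ) = (p : ℤ) ^ V i * (unit p (x i) : ℤ) := by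
    intro i
    rw [hV]
    exact_mod_cast (pow_mul_unit p (x i)).symm
  have hxd : ∀ i, (p : ℤ) ^ V i ∣ (x i : ℤ) := fun i => ⟨_, hxV i⟩
  have had : ∀ i, (p : ℤ) ^ v i ∣ a i := by
    intro i
    rw [hv]
    exact padicValInt_dvd (a i)
  have claim1 : ∀ i, i ∉ J → σ J + V j + 1 ≤ v i + V i := by
    intro i hi
    have h1 := hj i (mem_univ i)
    have h2 : J ≠ univ := fun h => hi (h ▸ mem_univ i)
    have h3 := hg J hJn h2 j hjJ
    have h3' : σ J ≤ v j + g := by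
      rw [hσ, hv]
      exact h3
    by_contra hcon
    obtain ⟨e, he⟩ : ∃ e : ℕ, v i + V i = v j + V j + e := Nat.exists_eq_add_of_le h1
    have he2 : e < g + 1 := by omega
    have h4 := bits_ne (congrArg Prod.fst (hχ i j)) (s := (i, j, ⟨e, he2⟩)) (by
      have h5 : V i ≠ V j := fun h => hi ((memJ i).2 h)
      simp only
      omega)
    apply h4
    have h6 : padicValNat p (x i) = V i := by rw [hV]
    have h7 : padicValNat p (x j) = V j := by rw [hV]
    rw [h6, h7]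
    simp only
    omega
  have claim3 : (p : ℤ) ^ (σ J + V j + 1) ∣ ∑ i ∈ J, a i * (x i : ℤ) := by
    have h1 : ∑ i ∈ J, a i * (x i : ℤ) = - ∑ i ∈ Jᶜ, a i * (x i : ℤ) := by
      rw [← sum_add_sum_compl J] at hsum
      linarith
    rw [h1, dvd_neg]
    apply dvd_sum
    intro i hi
    have h2 := claim1 i (mem_compl.1 hi)
    refine (pow_dvd_pow _ h2).trans ?_
    rw [pow_add]
    exact mul_dvd_mul (had i) (hxd i)
  have claim4 : ((p ^ (σ J + 1) : ℕ) : ℤ) ∣ ∑ i ∈ J, a i * (unit p (x i) : ℤ) := by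
    have h1 : ∑ i ∈ J, a i * (x i : ℤ) = (p : ℤ) ^ V j * ∑ i ∈ J, a i * (unit p (x i) : ℤ) := by
      rw [mul_sum]
      apply sum_congr rfl
      intro i hi
      rw [hxV i, (memJ i).1 hi]
      ring
    rw [h1, show σ J + V j + 1 = V j + (σ J + 1) by ring, pow_add] at claim3
    have h2 : (p : ℤ) ^ V j ≠ 0 := pow_ne_zero _ (by exact_mod_cast hp.ne_zero)
    rw [Nat.cast_pow]
    exact (mul_dvd_mul_iff_left h2).1 claim3
  have hq : 0 < p ^ (σ J + 1) := pow_pos hp.pos _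
  obtain ⟨R, hR, hdvd⟩ := cell_sum (N := k * p) hq hJn (y := fun i => a i * (unit p (x i) : ℤ))
    (z := fun i => a i * (unit p (x j) : ℤ)) (fun i _ => congrFun (congrFun (congrArg Prod.snd (hχ i j)) J) i)
  have hdvd2 : ((p ^ (σ J + 1) : ℕ) : ℤ) ∣ (∑ i ∈ J, a i) * (unit p (x j) : ℤ) + R := by
    have := dvd_add hdvd claim4
    rw [sub_add_cancel, ← sum_mul] at this
    exact this
  have hsd : (p : ℤ) ^ σ J ∣ ∑ i ∈ J, a i := by
    rw [hσ]
    exact padicValInt_dvd _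
  have hRd : (p : ℤ) ^ σ J ∣ R := by
    have h1 : (p : ℤ) ^ σ J ∣ (∑ i ∈ J, a i) * (unit p (x j) : ℤ) + R := by
      refine dvd_trans ?_ hdvd2
      rw [Nat.cast_pow]
      exact pow_dvd_pow _ (Nat.le_succ _)
    exact (dvd_add_right (hsd.mul_right _)).1 h1
  have hR0 : R = 0 := by
    apply Int.eq_zero_of_abs_lt_dvd hRd
    have h1 : (J.card : ℤ) ≤ k := by
      have := card_le_univ J
      rw [Fintype.card_fin] at this
      exact_mod_cast this
    have hkp : (0 : ℤ) < (k : ℤ) * p := by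
      have := Nat.mul_pos hk hp.pos
      exact_mod_cast this
    have h2 : |R| * ((k : ℤ) * p) < ((p : ℤ) ^ σ J) * ((k : ℤ) * p) := by
      have h3 : (J.card : ℤ) * ((p ^ (σ J + 1) : ℕ) : ℤ) ≤ k * ((p ^ (σ J + 1) : ℕ) : ℤ) :=
        mul_le_mul_of_nonneg_right h1 (by positivity)
      have h4 : (k : ℤ) * ((p ^ (σ J + 1) : ℕ) : ℤ) = ((p : ℤ) ^ σ J) * ((k : ℤ) * p) := by
        push_cast
        ring
      have h5 : |R| * ((k * p : ℕ) : ℤ) < (J.card : ℤ) * ((p ^ (σ J + 1) : ℕ) : ℤ) := hR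
      push_cast at h5 h3 h4 ⊢
      linarith
    exact lt_of_mul_lt_mul_right h2 hkp.le
  rw [hR0, add_zero] at hdvd2
  have hcop : IsCoprime ((p ^ (σ J + 1) : ℕ) : ℤ) (unit p (x j) : ℤ) := by
    rw [Nat.isCoprime_iff_coprime]
    exact Nat.Coprime.pow_left _ ((Nat.Prime.coprime_iff_not_dvd hp).2 (not_dvd_unit p (hx j).ne'))
  have h1 := hcop.dvd_of_dvd_mul_right hdvd2
  rw [Nat.cast_pow, padicValInt_dvd_iff] at h1
  rcases h1 with h1 | h1
  · exact hs0 h1
  · rw [hσ] at h1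
    simp only at h1
    omega

end Prime

end Pool.Agent.RadoB
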