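import Pool.Agent.RadoB.Kappa

/-!
# Tuples in two groups of bounded ratio (helper file for MP_13469d_co, helper86)
-/

namespace Pool.Agent.RadoB

open Finset

/-- Modulo the prime `p`, the entries of equal valuation are proportional to integers `b i` of absolute value at most
`K`, and `p` divides no sum of these `b i`. -/
def PropGood {k : ℕ} (p K : ℕ) (a : Fin k → ℤ) : Prop :=
  ∃ b : Fin k → ℤ, (∀ i, |b i| ≤ K) ∧
    (∀ i j, padicValInt p (a i) = padicValInt p (a j) →
      (p : ℤ) ^ (padicValInt p (a i) + 1) ∣ b j * a i - b i * a j) ∧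
    ∀ J : Finset (Fin k), J.Nonempty → (∀ i ∈ J, ∀ j ∈ J, padicValInt p (a i) = padicValInt p (a j)) →
      ¬ (p : ℤ) ∣ ∑ i ∈ J, b i

/-- The entries are in two groups, and the ratios of the entries of a group are those of integers of absolute value at
most `K`. -/
def TwoGroups {k : ℕ} (K : ℕ) (a : Fin k → ℤ) : Prop :=
  ∃ (A₁ A₂ : ℤ) (g : Fin k → Bool) (b : Fin k → ℤ), (∀ i, |b i| ≤ K) ∧
    ∀ i, a i = (if g i = true then A₁ else A₂) * b i

theorem prop_place {k : ℕ} (hk : 0 < k) (K : ℕ) : ∃ C : ℕ, ∀ p : ℕ, p.Prime → ∀ a : Fin k → ℤ,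
    ¬ RadoCondition a → PropGood p K a → Bound a C := by
  classical
  obtain ⟨T, hT, hκ⟩ := kappa k K
  refine ⟨Fintype.card ((Fin k × Fin k → Bool) × T), ?_⟩
  intro p hp a ha hg
  obtain ⟨κ, hκ⟩ := hκ p hp
  obtain ⟨b, hb1, hb2, hb3⟩ := hg
  have : Fact p.Prime := ⟨hp⟩
  have : Nonempty (Fin k) := ⟨⟨0, hk⟩⟩
  have ha0 : ∀ i, a i ≠ 0 := coeff_ne ha
  obtain ⟨v, hv⟩ : ∃ v : Fin k → ℕ, v = fun i => padicValInt p (a i) := ⟨_, rfl⟩
  have hvi : ∀ i, padicValInt p (a i) = v i := fun i => by rw [hv]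
  simp only [hvi] at hb2 hb3
  have hd : ∀ i, ∃ d : ℤ, a i = (p : ℤ) ^ v i * d := by
    intro i
    rw [hv]
    exact padicValInt_dvd (a i)
  choose d hd using hd
  have hdp : ∀ i, ¬ (p : ℤ) ∣ d i := by
    rintro i ⟨e, he⟩
    have h1 : (p : ℤ) ^ (v i + 1) ∣ a i := ⟨e, by rw [hd i, he, pow_succ]; ring⟩
    rw [padicValInt_dvd_iff, hvi] at h1
    rcases h1 with h1 | h1
    · exact ha0 i h1
    · omega
  have hp0 : (p : ℤ) ≠ 0 := by exact_mod_cast hp.ne_zero
  have hbd : ∀ i j, v i = v j → (p : ℤ) ∣ b j * d i - b i * d j := by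
    intro i j hij
    have h1 := hb2 i j hij
    have h2 : b j * a i - b i * a j = (p : ℤ) ^ v i * (b j * d i - b i * d j) := by
      rw [hd i, hd j, hij]
      ring
    rw [h2, pow_succ] at h1
    exact (mul_dvd_mul_iff_left (pow_ne_zero _ hp0)).1 h1
  refine bound_of (fun x => (bits (fun s : Fin k × Fin k => ((v s.2 : ℤ) - v s.1)) (padicValNat p x),
      κ (unit p x))) ?_
  intro x hx hχ hsum
  obtain ⟨V, hV⟩ : ∃ V : Fin k → ℕ, V = fun i => padicValNat p (x i) := ⟨_, rfl⟩
  obtain ⟨j, -, hj⟩ := exists_min_image univ (fun i => v i + V i) univ_nonempty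
  obtain ⟨t, ht⟩ : ∃ t : ℕ, t = v j + V j := ⟨_, rfl⟩
  have hjt : ∀ i, t ≤ v i + V i := by
    intro i
    rw [ht]
    exact hj i (mem_univ i)
  have hpp : Prime (p : ℤ) := Nat.prime_iff_prime_int.1 hp
  have hax : ∀ i, a i * (x i : ℤ) = (p : ℤ) ^ (v i + V i) * (d i * (unit p (x i) : ℤ)) := by
    intro i
    have hxV : (x i : ℤ) = (p : ℤ) ^ V i * (unit p (x i) : ℤ) := by
      rw [hV]
      exact_mod_cast (pow_mul_unit p (x i)).symm
    rw [hxV, hd i, pow_add]
    ring
  have hmin : ∀ i, v i + V i = t → v i = v j := by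
    intro i hi
    by_contra hne
    apply bits_ne (congrArg Prod.fst (hχ i j)) (s := (i, j)) (by simp only; omega)
    have h6 : padicValNat p (x i) = V i := by rw [hV]
    have h7 : padicValNat p (x j) = V j := by rw [hV]
    rw [h6, h7]
    simp only
    omega
  obtain ⟨M, hM⟩ : ∃ M : Finset (Fin k), M = univ.filter (fun i => v i + V i = t) := ⟨_, rfl⟩
  have memM : ∀ i, i ∈ M ↔ v i + V i = t := by
    intro i
    rw [hM, mem_filter]
    simp
  have hMn : M.Nonempty := ⟨j, (memM j).2 ht.symm⟩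
  have hpt : (p : ℤ) ^ t ≠ 0 := pow_ne_zero _ hp0
  have h1 : (p : ℤ) ∣ ∑ i ∈ M, d i * (unit p (x i) : ℤ) := by
    have h2 : (p : ℤ) ^ (t + 1) ∣ ∑ i ∈ Mᶜ, a i * (x i : ℤ) := by
      apply dvd_sum
      intro i hi
      have h3 : v i + V i ≠ t := fun h => (mem_compl.1 hi) ((memM i).2 h)
      have h4 := hjt i
      rw [hax i]
      exact Dvd.dvd.mul_right (pow_dvd_pow _ (by omega)) _
    have h3 : ∑ i ∈ M, a i * (x i : ℤ) = (p : ℤ) ^ t * ∑ i ∈ M, d i * (unit p (x i) : ℤ) := by
      rw [mul_sum]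
      apply sum_congr rfl
      intro i hi
      rw [hax i, (memM i).1 hi]
    have h4 : (p : ℤ) ^ (t + 1) ∣ ∑ i ∈ M, a i * (x i : ℤ) := by
      have h5 := sum_add_sum_compl M (fun i => a i * (x i : ℤ))
      rw [hsum] at h5
      have h6 : ∑ i ∈ M, a i * (x i : ℤ) = - ∑ i ∈ Mᶜ, a i * (x i : ℤ) := by linarith
      rw [h6, dvd_neg]
      exact h2
    rw [h3, pow_succ] at h4
    exact (mul_dvd_mul_iff_left hpt).1 h4
  have h2 : (p : ℤ) ∣ ∑ i ∈ M, b i * (unit p (x i) : ℤ) := by
    have h3 : (p : ℤ) ∣ d j * ∑ i ∈ M, b i * (unit p (x i) : ℤ) := by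
      have h4 : d j * ∑ i ∈ M, b i * (unit p (x i) : ℤ) = b j * ∑ i ∈ M, d i * (unit p (x i) : ℤ) -
          ∑ i ∈ M, (b j * d i - b i * d j) * (unit p (x i) : ℤ) := by
        rw [mul_sum, mul_sum, ← sum_sub_distrib]
        exact sum_congr rfl fun i _ => by ring
      rw [h4]
      exact dvd_sub (h1.mul_left _) (dvd_sum fun i hi => (hbd i j (hmin i ((memM i).1 hi))).mul_right _)
    exact (hpp.dvd_or_dvd h3).resolve_left (hdp j)
  refine hκ M b (fun i => unit p (x i)) hMn (fun i _ => hb1 i) ?_ (fun i _ => not_dvd_unit p (hx i).ne')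
    (fun i _ l _ => congrArg Prod.snd (hχ i l)) h2
  intro M' hM' hMn'
  exact hb3 M' hMn' fun i hi l hl => (hmin i ((memM i).1 (hM' hi))).trans (hmin l ((memM l).1 (hM' hl))).symm

/-- Rado's colouring. -/
lemma rado_digit {k : ℕ} (hk : 0 < k) {q : ℕ} (hq : q.Prime) {a : Fin k → ℤ}
    (ha : ∀ J : Finset (Fin k), J.Nonempty → ¬ (q : ℤ) ∣ ∑ i ∈ J, a i) : Bound a q := by
  have : NeZero q := ⟨hq.ne_zero⟩
  have : Nonempty (Fin k) := ⟨⟨0, hk⟩⟩
  have h := bound_of (a := a) (fun x => Fin.ofNat q (unit q x)) (by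
    intro x hx hχ hsum
    obtain ⟨M, -, hM, hqM⟩ := digit hq (J := univ) univ_nonempty (fun i _ => (hx i).ne')
      (fun i _ j _ => by
        have h1 := congrArg Fin.val (hχ i j)
        simp only [Fin.val_ofNat] at h1
        exact h1) hsum
    exact ha M hM hqM)
  rwa [Fintype.card_fin] at h

lemma bound_smul {k : ℕ} {a a' : Fin k → ℤ} {G : ℤ} (hG : G ≠ 0) (h : ∀ i, a i = G * a' i) {r : ℕ}
    (hb : Bound a' r) : Bound a r := by
  have h1 : ∀ {r : ℕ} (χ : ℕ+ → Fin r), HasMonoSol a χ ↔ HasMonoSol a' χ := by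
    intro r χ
    unfold HasMonoSol
    refine exists_congr fun x => and_congr_right fun _ => ?_
    have h2 : ∑ i, a i * ((x i : ℕ) : ℤ) = G * ∑ i, a' i * ((x i : ℕ) : ℤ) := by
      rw [mul_sum]
      exact sum_congr rfl fun i _ => by rw [h i]; ring
    rw [h2, mul_eq_zero]
    exact ⟨fun h => h.resolve_left hG, fun h => Or.inr h⟩
  have h2 : c a = c a' := by
    unfold c
    simp only [h1]
  unfold Bound at hb ⊢
  rw [h2]
  simp only [h1]
  exact hb

lemma val_le {p : ℕ} (hp : p.Prime) {z : ℤ} (hz : z ≠ 0) {m : ℕ} (h : |z| ≤ m) : padicValInt p z ≤ m := by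
  have : Fact p.Prime := ⟨hp⟩
  have h1 : p ^ padicValInt p z ≤ z.natAbs := Nat.le_of_dvd (Int.natAbs_pos.2 hz) pow_padicValNat_dvd
  have h2 : padicValInt p z < p ^ padicValInt p z := Nat.lt_pow_self hp.one_lt
  have h3 : z.natAbs ≤ m := by
    zify
    exact h
  omega

theorem two_groups {k : ℕ} (hk : 0 < k) (K : ℕ) : ∃ C : ℕ, ∀ a : Fin k → ℤ,
    ¬ RadoCondition a → TwoGroups K a → Bound a C := by
  classical
  obtain ⟨C₁, hC₁⟩ := prop_place hk K
  obtain ⟨L, hL⟩ : ∃ L, L = k * K := ⟨_, rfl⟩
  obtain ⟨W, hW⟩ : ∃ W, W = (Nat.factorial L) ^ L := ⟨_, rfl⟩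
  obtain ⟨q, hqW, hq⟩ := Nat.exists_infinite_primes (k * (W * K) + 1)
  refine ⟨C₁ + ∑ p ∈ range (L + 1), Fintype.card (Col k L (k * p)) + q, ?_⟩
  intro a ha hg
  have ha0 : ∀ i, a i ≠ 0 := coeff_ne ha
  -- nonzero factors
  obtain ⟨A, g, b, hA0, hb, hab⟩ : ∃ (A : Bool → ℤ) (g : Fin k → Bool) (b : Fin k → ℤ), (∀ s, A s ≠ 0) ∧
      (∀ i, |b i| ≤ K) ∧ ∀ i, a i = A (g i) * b i := by
    obtain ⟨A₁, A₂, g, b, hb, hab⟩ := hg
    refine ⟨fun s => if s = true then (if A₁ = 0 then 1 else A₁) else (if A₂ = 0 then 1 else A₂), g, b, ?_, hb, ?_⟩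
    · intro s
      simp only
      split_ifs <;> first | assumption | exact one_ne_zero
    · intro i
      have h1 := hab i
      have h2 := ha0 i
      simp only
      by_cases hgi : g i = true
      · rw [if_pos hgi] at h1 ⊢
        by_cases h3 : A₁ = 0
        · rw [h3, zero_mul] at h1
          exact absurd h1 h2
        · rw [if_neg h3]
          exact h1
      · rw [if_neg hgi] at h1 ⊢
        by_cases h3 : A₂ = 0
        · rw [h3, zero_mul] at h1
          exact absurd h1 h2
        · rw [if_neg h3]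
          exact h1
  have hb0 : ∀ i, b i ≠ 0 := by
    intro i h
    apply ha0 i
    rw [hab i, h, mul_zero]
  -- sums of the `b i` in one group
  have hsum : ∀ (J : Finset (Fin k)) (s : Bool), (∀ i ∈ J, g i = s) → ∑ i ∈ J, a i = A s * ∑ i ∈ J, b i := by
    intro J s hJ
    rw [mul_sum]
    exact sum_congr rfl fun i hi => by rw [hab i, hJ i hi]
  have hsum0 : ∀ (J : Finset (Fin k)) (s : Bool), J.Nonempty → (∀ i ∈ J, g i = s) → ∑ i ∈ J, b i ≠ 0 := by
    intro J s hJ hJs h
    apply sum_ne ha hJ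
    rw [hsum J s hJs, h, mul_zero]
  have hsumle : ∀ J : Finset (Fin k), |∑ i ∈ J, b i| ≤ L := by
    intro J
    rw [hL]
    push_cast
    exact (abs_sum_le_sum_abs _ _).trans (abs_sum_le fun i _ => hb i)
  have hbL : ∀ i, |b i| ≤ L := by
    intro i
    have h1 := hsumle {i}
    rwa [sum_singleton] at h1
  have hval : ∀ {p : ℕ}, p.Prime → ∀ i, padicValInt p (a i) = padicValInt p (A (g i)) + padicValInt p (b i) := by
    intro p hp i
    have : Fact p.Prime := ⟨hp⟩
    rw [hab i, padicValInt.mul (hA0 _) (hb0 i)]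
  by_cases hα : ∃ p, p.Prime ∧ L < p ∧ padicValInt p (A true) ≠ padicValInt p (A false)
  · -- a large prime separates the groups
    obtain ⟨p, hp, hpL, hne⟩ := hα
    refine (hC₁ p hp a ha ⟨b, hb, ?_, ?_⟩).mono (by omega)
    · intro i j hij
      have hbi : ∀ i, padicValInt p (b i) = 0 := by
        intro i
        apply padicValInt.eq_zero_of_not_dvd
        intro h
        apply hb0 i
        apply Int.eq_zero_of_abs_lt_dvd h
        have := hbL i
        have : (L : ℤ) < p := by exact_mod_cast hpL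
        linarith
      rw [hval hp, hval hp, hbi, hbi, add_zero, add_zero] at hij
      have hgij : g i = g j := by
        by_contra hgij
        apply hne
        cases h1 : g i <;> cases h2 : g j
        · exact absurd (h1.trans h2.symm) hgij
        · rw [h1, h2] at hij
          exact hij.symm
        · rw [h1, h2] at hij
          exact hij
        · exact absurd (h1.trans h2.symm) hgij
      have h1 : b j * a i - b i * a j = 0 := by
        rw [hab i, hab j, hgij]
        ring
      rw [h1]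
      exact dvd_zero _
    · intro J hJ hJv h
      have hbi : ∀ i, padicValInt p (b i) = 0 := by
        intro i
        apply padicValInt.eq_zero_of_not_dvd
        intro h
        apply hb0 i
        apply Int.eq_zero_of_abs_lt_dvd h
        have := hbL i
        have : (L : ℤ) < p := by exact_mod_cast hpL
        linarith
      obtain ⟨j, hj⟩ := hJ
      apply hsum0 J (g j) ⟨j, hj⟩
      · intro i hi
        have hij := hJv i hi j hj
        rw [hval hp, hval hp, hbi, hbi, add_zero, add_zero] at hij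
        by_contra hgij
        apply hne
        cases h1 : g i <;> cases h2 : g j
        · exact absurd (h1.trans h2.symm) hgij
        · rw [h1, h2] at hij
          exact hij.symm
        · rw [h1, h2] at hij
          exact hij
        · exact absurd (h1.trans h2.symm) hgij
      · apply Int.eq_zero_of_abs_lt_dvd h
        have h1 := hsumle J
        have h2 : (L : ℤ) < p := by exact_mod_cast hpL
        linarith
  push Not at hα
  by_cases hβ : ∃ p, p.Prime ∧ p ≤ L ∧ ∃ s, padicValInt p (A s) + L < padicValInt p (A (!s))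
  · -- a small prime separates the groups
    obtain ⟨p, hp, hpL, s, hs⟩ := hβ
    have : Fact p.Prime := ⟨hp⟩
    have hgood : PrimeGood p L a := by
      intro J hJ _ i hi
      obtain ⟨J₁, hJ₁⟩ : ∃ J₁, J₁ = J.filter (fun i => g i = s) := ⟨_, rfl⟩
      obtain ⟨J₂, hJ₂⟩ : ∃ J₂, J₂ = J.filter (fun i => ¬ g i = s) := ⟨_, rfl⟩
      have hsplit : ∑ i ∈ J, a i = A s * ∑ i ∈ J₁, b i + A (!s) * ∑ i ∈ J₂, b i := by
        rw [← hsum J₁ s (fun i hi => by rw [hJ₁] at hi; exact (mem_filter.1 hi).2),
          ← hsum J₂ (!s) (fun i hi => by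
            rw [hJ₂] at hi
            have h1 := (mem_filter.1 hi).2
            cases s <;> cases h2 : g i <;> simp_all), hJ₁, hJ₂, sum_filter_add_sum_filter_not]
      have hvi := hval hp i
      by_cases h1 : J₁.Nonempty
      · have h2 : ∑ i ∈ J₁, b i ≠ 0 := hsum0 J₁ s h1 (fun i hi => by rw [hJ₁] at hi; exact (mem_filter.1 hi).2)
        have h3 := val_le hp h2 (hsumle J₁)
        have h4 : padicValInt p (∑ i ∈ J, a i) ≤ padicValInt p (A s) + L := by
          by_contra hcon
          push Not at hcon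
          have h5 : (p : ℤ) ^ (padicValInt p (A s) + L + 1) ∣ ∑ i ∈ J, a i :=
            (padicValInt_dvd_iff _ _).2 (Or.inr (by omega))
          have h6 : (p : ℤ) ^ (padicValInt p (A s) + L + 1) ∣ A (!s) * ∑ i ∈ J₂, b i :=
            Dvd.dvd.mul_right ((padicValInt_dvd_iff _ _).2 (Or.inr (by omega))) _
          have h7 : (p : ℤ) ^ (padicValInt p (A s) + L + 1) ∣ A s * ∑ i ∈ J₁, b i := by
            rw [hsplit] at h5
            exact (dvd_add_left h6).1 h5
          rw [padicValInt_dvd_iff, padicValInt.mul (hA0 s) h2] at h7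
          rcases h7 with h7 | h7
          · exact (mul_ne_zero (hA0 s) h2) h7
          · omega
        have h5 : padicValInt p (A s) ≤ padicValInt p (A (g i)) := by
          by_cases h6 : g i = s
          · rw [h6]
          · have h7 : g i = !s := by
              cases s <;> cases h8 : g i <;> simp_all
            rw [h7]
            omega
        omega
      · have hJ1e : J₁ = ∅ := not_nonempty_iff_eq_empty.1 h1
        have hall : ∀ i ∈ J, g i = !s := by
          intro i hi
          have h2 : ¬ g i = s := by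
            intro h3
            have h4 : i ∈ J₁ := by
              rw [hJ₁]
              exact mem_filter.2 ⟨hi, h3⟩
            rw [hJ1e] at h4
            exact notMem_empty i h4
          cases s <;> cases h8 : g i <;> simp_all
        have h2 := hsum0 J (!s) hJ hall
        have h3 := val_le hp h2 (hsumle J)
        rw [hsum J (!s) hall, padicValInt.mul (hA0 _) h2, hvi, hall i hi]
        omega
    refine (prime_place hk hp ha hgood).mono ?_
    have h1 := single_le_sum (f := fun p => Fintype.card (Col k L (k * p))) (fun _ _ => Nat.zero_le _)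
      (mem_range.2 (by omega : p < L + 1))
    omega
  push Not at hβ
  -- bounded ratio
  obtain ⟨G, hG⟩ : ∃ G : ℕ, G = Int.gcd (A true) (A false) := ⟨_, rfl⟩
  have hG0 : G ≠ 0 := by
    rw [hG]
    exact fun h => hA0 true (Int.gcd_eq_zero_iff.1 h).1
  have hGs : ∀ s, (G : ℤ) ∣ A s := by
    intro s
    rw [hG]
    cases s
    · exact Int.gcd_dvd_right _ _
    · exact Int.gcd_dvd_left _ _
  choose B hB using hGs
  have hG0' : (G : ℤ) ≠ 0 := by exact_mod_cast hG0
  have hB0 : ∀ s, B s ≠ 0 := by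
    intro s h
    apply hA0 s
    rw [hB s, h, mul_zero]
  have hcop : IsCoprime (B true) (B false) := by
    rw [Int.isCoprime_iff_gcd_eq_one]
    have h1 : Int.gcd (A true) (A false) = G * Int.gcd (B true) (B false) := by
      rw [hB true, hB false, Int.gcd_mul_left, Int.natAbs_natCast]
    rw [← hG] at h1
    have h2 : G * 1 = G * Int.gcd (B true) (B false) := by rw [mul_one]; exact h1
    exact (Nat.eq_of_mul_eq_mul_left (Nat.pos_of_ne_zero hG0) h2).symm
  have hBle : ∀ s, (B s).natAbs ≤ W := by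
    intro s
    apply Nat.le_of_dvd (by rw [hW]; positivity)
    rw [← Nat.factorization_prime_le_iff_dvd (Int.natAbs_ne_zero.2 (hB0 s)) (by rw [hW]; positivity)]
    intro p hp
    have : Fact p.Prime := ⟨hp⟩
    rw [Nat.factorization_def _ hp]
    show padicValInt p (B s) ≤ _
    by_cases h0 : padicValInt p (B s) = 0
    · rw [h0]
      exact Nat.zero_le _
    have hother : padicValInt p (B (!s)) = 0 := by
      by_contra h1
      have h2 : (p : ℤ) ∣ B s := by
        have := padicValInt_dvd (p := p) (B s)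
        exact (dvd_pow_self _ h0).trans this
      have h3 : (p : ℤ) ∣ B (!s) := by
        have := padicValInt_dvd (p := p) (B (!s))
        exact (dvd_pow_self _ h1).trans this
      have hpp : Prime (p : ℤ) := Nat.prime_iff_prime_int.1 hp
      cases s
      · exact hpp.not_isUnit (hcop.isUnit_of_dvd' h3 h2)
      · exact hpp.not_isUnit (hcop.isUnit_of_dvd' h2 h3)
    have hAs : ∀ s, padicValInt p (A s) = padicValInt p (G : ℤ) + padicValInt p (B s) := by
      intro s
      rw [hB s, padicValInt.mul hG0' (hB0 s)]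
    have hpL : p ≤ L := by
      by_contra hcon
      have h1 := hα p hp (by omega)
      have h2 := hAs s
      have h3 := hAs (!s)
      cases s
      · simp only [Bool.not_false] at h3 hother
        omega
      · simp only [Bool.not_true] at h3 hother
        omega
    have h1 := hβ p hp hpL (!s)
    rw [Bool.not_not, hAs, hAs, hother] at h1
    have h2 : L ≤ padicValNat p W := by
      rw [hW, padicValNat.pow]
      have h3 : 1 ≤ padicValNat p (Nat.factorial L) := by
        have h4 : p ∣ Nat.factorial L := (hp.dvd_factorial).2 hpL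
        exact one_le_padicValNat_of_dvd (Nat.factorial_ne_zero _) h4
      calc L = L * 1 := (mul_one L).symm
        _ ≤ L * padicValNat p (Nat.factorial L) := Nat.mul_le_mul_left _ h3
    rw [Nat.factorization_def _ hp]
    omega
  have hscale : ∀ i, a i = (G : ℤ) * (B (g i) * b i) := by
    intro i
    rw [hab i, hB (g i)]
    ring
  refine (bound_smul hG0' hscale (rado_digit hk hq ?_)).mono (by omega)
  intro J hJ hdvd
  have h0 : ∑ i ∈ J, B (g i) * b i ≠ 0 := by
    intro h
    apply sum_ne ha hJ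
    rw [sum_congr rfl fun i _ => hscale i, ← mul_sum, h, mul_zero]
  apply h0
  apply Int.eq_zero_of_abs_lt_dvd hdvd
  have h1 : |∑ i ∈ J, B (g i) * b i| ≤ ((k * (W * K) : ℕ) : ℤ) := by
    calc |∑ i ∈ J, B (g i) * b i| ≤ ∑ i ∈ J, |B (g i) * b i| := abs_sum_le_sum_abs _ _
      _ ≤ ∑ i ∈ J, ((W * K : ℕ) : ℤ) := by
          apply sum_le_sum
          intro i _
          rw [abs_mul, Nat.cast_mul]
          apply mul_le_mul _ (hb i) (abs_nonneg _) (by positivity)
          rw [Int.abs_eq_natAbs]
          exact_mod_cast hBle (g i)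
      _ = J.card * ((W * K : ℕ) : ℤ) := by rw [sum_const, nsmul_eq_mul]
      _ ≤ k * ((W * K : ℕ) : ℤ) := by
          apply mul_le_mul_of_nonneg_right _ (by positivity)
          have := card_le_univ J
          rw [Fintype.card_fin] at this
          exact_mod_cast this
      _ = ((k * (W * K) : ℕ) : ℤ) := by push_cast; ring
  have h2 : ((k * (W * K) : ℕ) : ℤ) < q := by
    have : k * (W * K) < q := by omega
    exact_mod_cast this
  linarith

end Pool.Agent.RadoB
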