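import Pool.Agent.RadoB.Base

/-!
# Colourings of residue classes for equations with small coefficients (helper file for MP_13469d_co, helper86)

`kappa`: for every prime `p` the units modulo `p` have a colouring with a number of colours bounded in terms of `k` and
`K` without monochromatic solution of `∑ i ∈ J, b i * x i = 0` modulo `p` for integers `|b i| ≤ K` such that `p` divides
no subset sum. If `s x` is close to `0` modulo `p` for a small `s`, its least residue `R` is coloured by the sign and the last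
nonzero digit in base `q`, otherwise `x` is coloured by the cell of its residue.
-/

namespace Pool.Agent.RadoB

open Finset

/-- Rado's colouring by the last nonzero digit. -/
lemma digit {ι : Type} [DecidableEq ι] {q : ℕ} (hq : q.Prime) {J : Finset ι} (hJ : J.Nonempty) {b : ι → ℤ}
    {w : ι → ℕ} (hw : ∀ i ∈ J, w i ≠ 0) (hd : ∀ i ∈ J, ∀ j ∈ J, unit q (w i) % q = unit q (w j) % q)
    (hsum : ∑ i ∈ J, b i * (w i : ℤ) = 0) : ∃ M ⊆ J, M.Nonempty ∧ (q : ℤ) ∣ ∑ i ∈ M, b i := by
  classical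
  have : Fact q.Prime := ⟨hq⟩
  obtain ⟨j, hjJ, hj⟩ := exists_min_image J (fun i => padicValNat q (w i)) hJ
  obtain ⟨V, hV⟩ : ∃ V : ι → ℕ, V = fun i => padicValNat q (w i) := ⟨_, rfl⟩
  have hwV : ∀ i, (w i : ℤ) = (q : ℤ) ^ V i * (unit q (w i) : ℤ) := by
    intro i
    rw [hV]
    exact_mod_cast (pow_mul_unit q (w i)).symm
  refine ⟨J.filter (fun i => V i = V j), filter_subset _ _, ⟨j, mem_filter.2 ⟨hjJ, rfl⟩⟩, ?_⟩
  have hqV : (q : ℤ) ^ V j ≠ 0 := pow_ne_zero _ (by exact_mod_cast hq.ne_zero)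
  have h1 : (q : ℤ) ^ (V j + 1) ∣ ∑ i ∈ J.filter (fun i => ¬ V i = V j), b i * (w i : ℤ) := by
    apply dvd_sum
    intro i hi
    obtain ⟨hi1, hi2⟩ := mem_filter.1 hi
    have h2 := hj i hi1
    have h3 : V j ≤ V i := by
      rw [hV]
      exact h2
    rw [hwV i]
    exact (((pow_dvd_pow _ (by omega : V j + 1 ≤ V i)).mul_right _)).mul_left _
  have h2 : ∑ i ∈ J.filter (fun i => V i = V j), b i * (w i : ℤ) =
      (q : ℤ) ^ V j * ∑ i ∈ J.filter (fun i => V i = V j), b i * (unit q (w i) : ℤ) := by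
    rw [mul_sum]
    apply sum_congr rfl
    intro i hi
    rw [hwV i, (mem_filter.1 hi).2]
    ring
  have h3 : (q : ℤ) ∣ ∑ i ∈ J.filter (fun i => V i = V j), b i * (unit q (w i) : ℤ) := by
    rw [← sum_filter_add_sum_filter_not J (fun i => V i = V j), h2] at hsum
    have h4 : (q : ℤ) ^ (V j + 1) ∣ (q : ℤ) ^ V j * ∑ i ∈ J.filter (fun i => V i = V j), b i * (unit q (w i) : ℤ) := by
      have h5 : (q : ℤ) ^ V j * ∑ i ∈ J.filter (fun i => V i = V j), b i * (unit q (w i) : ℤ) =
          - ∑ i ∈ J.filter (fun i => ¬ V i = V j), b i * (w i : ℤ) := by linarith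
      rw [h5, dvd_neg]
      exact h1
    rw [pow_succ] at h4
    exact (mul_dvd_mul_iff_left hqV).1 h4
  have h4 : (q : ℤ) ∣ (∑ i ∈ J.filter (fun i => V i = V j), b i) * (unit q (w j) : ℤ) := by
    have h5 : (∑ i ∈ J.filter (fun i => V i = V j), b i) * (unit q (w j) : ℤ) =
        ∑ i ∈ J.filter (fun i => V i = V j), b i * (unit q (w i) : ℤ) -
          ∑ i ∈ J.filter (fun i => V i = V j), b i * ((unit q (w i) : ℤ) - (unit q (w j) : ℤ)) := by
      rw [sum_mul, ← sum_sub_distrib]
      exact sum_congr rfl fun i _ => by ring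
    rw [h5]
    refine dvd_sub h3 (dvd_sum fun i hi => Dvd.dvd.mul_left ?_ _)
    have h6 := hd i (mem_filter.1 hi).1 j hjJ
    have h7 : (unit q (w j) : ℤ) ≡ (unit q (w i) : ℤ) [ZMOD q] := by
      have := (Nat.ModEq.symm (show unit q (w i) ≡ unit q (w j) [MOD q] from h6))
      exact (Int.natCast_modEq_iff).2 this
    exact (Int.modEq_iff_dvd).1 h7
  have hqp : Prime (q : ℤ) := Nat.prime_iff_prime_int.1 hq
  rcases hqp.dvd_or_dvd h4 with h5 | h5
  · exact h5
  · exact absurd (Int.natCast_dvd_natCast.1 h5) (not_dvd_unit q (hw j hjJ))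

lemma abs_sum_le {k K : ℕ} {J : Finset (Fin k)} {b : Fin k → ℤ} (hb : ∀ i ∈ J, |b i| ≤ K) :
    ∑ i ∈ J, |b i| ≤ k * K := by
  calc ∑ i ∈ J, |b i| ≤ ∑ i ∈ J, (K : ℤ) := sum_le_sum hb
    _ = J.card * K := by rw [sum_const, nsmul_eq_mul]
    _ ≤ k * K := by
        apply mul_le_mul_of_nonneg_right _ (by positivity)
        have := card_le_univ J
        rw [Fintype.card_fin] at this
        exact_mod_cast this

/-- `s x` is close to `0` modulo `p` for some `s ≤ S`, with least residue `R`. -/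
def Near (S p : ℕ) (x : ℕ) (s : ℕ) (R : ℤ) : Prop :=
  1 ≤ s ∧ s ≤ S ∧ S * |R| < p ∧ (p : ℤ) ∣ s * x - R

theorem kappa (k K : ℕ) : ∃ (T : Type) (_ : Fintype T), ∀ p : ℕ, p.Prime → ∃ κ : ℕ → T,
    ∀ (J : Finset (Fin k)) (b : Fin k → ℤ) (x : Fin k → ℕ), J.Nonempty → (∀ i ∈ J, |b i| ≤ K) →
    (∀ M ⊆ J, M.Nonempty → ¬ (p : ℤ) ∣ ∑ i ∈ M, b i) → (∀ i ∈ J, ¬ p ∣ x i) →
    (∀ i ∈ J, ∀ j ∈ J, κ (x i) = κ (x j)) → ¬ (p : ℤ) ∣ ∑ i ∈ J, b i * (x i : ℤ) := by
  classical
  obtain ⟨S, hS⟩ : ∃ S, S = k * K + 1 := ⟨_, rfl⟩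
  obtain ⟨q, hqS, hq⟩ := Nat.exists_infinite_primes (S + 1)
  have hS0 : 0 < S := by omega
  have : NeZero (S * S) := ⟨(Nat.mul_pos hS0 hS0).ne'⟩
  have : NeZero q := ⟨hq.ne_zero⟩
  refine ⟨Fin (S + 1) × Option (Fin (S + 1) × Bool × Fin q) × Fin (S * S), inferInstance, fun p hp => ?_⟩
  obtain ⟨s, hs⟩ : ∃ s : ℕ → ℕ, ∀ x, (∃ s R, Near S p x s R) → ∃ R, Near S p x (s x) R := by
    choose! s hs using fun x (h : ∃ s R, Near S p x s R) => h
    exact ⟨s, hs⟩
  obtain ⟨R, hR⟩ : ∃ R : ℕ → ℤ, ∀ x, (∃ s R, Near S p x s R) → Near S p x (s x) (R x) := by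
    choose! R hR using hs
    exact ⟨R, hR⟩
  refine ⟨fun x => (Fin.ofNat (S + 1) (x % p), if (∃ s R, Near S p x s R) then
    some (Fin.ofNat (S + 1) (s x), decide (0 < R x), Fin.ofNat q (unit q (R x).natAbs)) else none,
    cell (S * S) p x), ?_⟩
  intro J b x hJ hb hsub hx hκ hdvd
  obtain ⟨j, hj⟩ := hJ
  have hpp : Prime (p : ℤ) := Nat.prime_iff_prime_int.1 hp
  have hp0 : (0 : ℤ) < p := by exact_mod_cast hp.pos
  have hB := abs_sum_le hb
  have hS' : (S : ℤ) = k * K + 1 := by
    rw [hS]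
    push_cast
    ring
  rcases le_or_gt p S with hpS | hpS
  · -- small primes
    have h1 : (p : ℤ) ∣ (∑ i ∈ J, b i) * (x j : ℤ) := by
      have h5 : (∑ i ∈ J, b i) * (x j : ℤ) = ∑ i ∈ J, b i * (x i : ℤ) - ∑ i ∈ J, b i * ((x i : ℤ) - (x j : ℤ)) := by
        rw [sum_mul, ← sum_sub_distrib]
        exact sum_congr rfl fun i _ => by ring
      rw [h5]
      refine dvd_sub hdvd (dvd_sum fun i hi => Dvd.dvd.mul_left ?_ _)
      have h6 := congrArg Fin.val (congrArg Prod.fst (hκ i hi j hj))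
      simp only [Fin.val_ofNat] at h6
      have h7 := Nat.mod_lt (x i) hp.pos
      have h8 := Nat.mod_lt (x j) hp.pos
      have e1 : x i % p % (S + 1) = x i % p := Nat.mod_eq_of_lt (by omega)
      have e2 : x j % p % (S + 1) = x j % p := Nat.mod_eq_of_lt (by omega)
      rw [e1, e2] at h6
      exact (Int.modEq_iff_dvd).1 ((Int.natCast_modEq_iff).2 (show x j ≡ x i [MOD p] from h6.symm))
    rcases hpp.dvd_or_dvd h1 with h2 | h2
    · exact hsub J (Subset.refl J) ⟨j, hj⟩ h2
    · exact hx j hj (Int.natCast_dvd_natCast.1 h2)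
  by_cases hnear : ∃ s R, Near S p (x j) s R
  · -- the near case
    have hall : ∀ i ∈ J, (∃ s R, Near S p (x i) s R) ∧ s (x i) = s (x j) ∧ ((0 < R (x i)) ↔ (0 < R (x j))) ∧
        unit q (R (x i)).natAbs % q = unit q (R (x j)).natAbs % q := by
      intro i hi
      have h1 := congrArg (fun z => z.2.1) (hκ i hi j hj)
      simp only at h1
      rw [if_pos hnear] at h1
      by_cases h2 : ∃ s R, Near S p (x i) s R
      · rw [if_pos h2] at h1
        obtain ⟨h3, h4, h5⟩ : Fin.ofNat (S + 1) (s (x i)) = Fin.ofNat (S + 1) (s (x j)) ∧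
            decide (0 < R (x i)) = decide (0 < R (x j)) ∧
            Fin.ofNat q (unit q (R (x i)).natAbs) = Fin.ofNat q (unit q (R (x j)).natAbs) := by
          have h3 := Option.some.inj h1
          exact ⟨congrArg Prod.fst h3, congrArg (fun z => z.2.1) h3, congrArg (fun z => z.2.2) h3⟩
        refine ⟨h2, ?_, decide_eq_decide.1 h4, ?_⟩
        · have h6 := congrArg Fin.val h3
          simp only [Fin.val_ofNat] at h6
          have h7 := (hR (x i) h2).2.1
          have h8 := (hR (x j) hnear).2.1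
          rw [Nat.mod_eq_of_lt (by omega), Nat.mod_eq_of_lt (by omega)] at h6
          exact h6
        · have h6 := congrArg Fin.val h5
          simp only [Fin.val_ofNat] at h6
          exact h6
      · rw [if_neg h2] at h1
        exact absurd h1.symm (Option.some_ne_none _)
    have hRi : ∀ i ∈ J, Near S p (x i) (s (x j)) (R (x i)) := by
      intro i hi
      have h1 := hR (x i) (hall i hi).1
      rwa [(hall i hi).2.1] at h1
    have hR0 : ∀ i ∈ J, R (x i) ≠ 0 := by
      intro i hi h0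
      obtain ⟨h1, h2, h3, h4⟩ := hRi i hi
      rw [h0, sub_zero] at h4
      rcases hpp.dvd_or_dvd h4 with h5 | h5
      · have h6 := Nat.le_of_dvd h1 (Int.natCast_dvd_natCast.1 h5)
        omega
      · exact hx i hi (Int.natCast_dvd_natCast.1 h5)
    have hsum0 : ∑ i ∈ J, b i * R (x i) = 0 := by
      have h1 : (p : ℤ) ∣ ∑ i ∈ J, b i * R (x i) := by
        have h2 : ∑ i ∈ J, b i * R (x i) = (s (x j) : ℤ) * ∑ i ∈ J, b i * (x i : ℤ) -
            ∑ i ∈ J, b i * ((s (x j) : ℤ) * (x i : ℤ) - R (x i)) := by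
          rw [mul_sum, ← sum_sub_distrib]
          exact sum_congr rfl fun i _ => by ring
        rw [h2]
        exact dvd_sub (hdvd.mul_left _) (dvd_sum fun i hi => Dvd.dvd.mul_left (hRi i hi).2.2.2 _)
      apply Int.eq_zero_of_abs_lt_dvd h1
      have h3 : S * |∑ i ∈ J, b i * R (x i)| < S * p := by
        calc (S : ℤ) * |∑ i ∈ J, b i * R (x i)| ≤ S * ∑ i ∈ J, |b i| * |R (x i)| := by
              apply mul_le_mul_of_nonneg_left _ (by positivity)
              refine (abs_sum_le_sum_abs _ _).trans (le_of_eq ?_)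
              exact sum_congr rfl fun i _ => abs_mul _ _
          _ = ∑ i ∈ J, |b i| * (S * |R (x i)|) := by
              rw [mul_sum]
              exact sum_congr rfl fun i _ => by ring
          _ ≤ ∑ i ∈ J, |b i| * p := by
              apply sum_le_sum
              intro i hi
              exact mul_le_mul_of_nonneg_left (hRi i hi).2.2.1.le (abs_nonneg _)
          _ = (∑ i ∈ J, |b i|) * p := by rw [sum_mul]
          _ ≤ (k * K) * p := mul_le_mul_of_nonneg_right hB hp0.le
          _ < S * p := mul_lt_mul_of_pos_right (by rw [hS']; linarith) hp0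
      exact lt_of_mul_lt_mul_left h3 (by positivity)
    -- the same sign
    have hsgn : ∃ ε : ℤ, ε ≠ 0 ∧ ∀ i ∈ J, R (x i) = ε * ((R (x i)).natAbs : ℤ) := by
      by_cases h0 : 0 < R (x j)
      · refine ⟨1, one_ne_zero, fun i hi => ?_⟩
        have h1 := (hall i hi).2.2.1.2 h0
        omega
      · refine ⟨-1, by norm_num, fun i hi => ?_⟩
        have h1 : ¬ 0 < R (x i) := fun h => h0 ((hall i hi).2.2.1.1 h)
        omega
    obtain ⟨ε, hε, hsgn⟩ := hsgn
    have hsum1 : ∑ i ∈ J, b i * ((R (x i)).natAbs : ℤ) = 0 := by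
      have h1 : ∑ i ∈ J, b i * R (x i) = ε * ∑ i ∈ J, b i * ((R (x i)).natAbs : ℤ) := by
        rw [mul_sum]
        apply sum_congr rfl
        intro i hi
        nth_rewrite 1 [hsgn i hi]
        ring
      rw [h1] at hsum0
      exact (mul_eq_zero.1 hsum0).resolve_left hε
    obtain ⟨M, hMJ, hM, hqM⟩ := digit hq (w := fun i => (R (x i)).natAbs) ⟨j, hj⟩
      (fun i hi => Int.natAbs_ne_zero.2 (hR0 i hi))
      (fun i hi i' hi' => (hall i hi).2.2.2.trans (hall i' hi').2.2.2.symm) hsum1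
    have h0 : ∑ i ∈ M, b i = 0 := by
      apply Int.eq_zero_of_abs_lt_dvd hqM
      calc |∑ i ∈ M, b i| ≤ ∑ i ∈ M, |b i| := abs_sum_le_sum_abs _ _
        _ ≤ k * K := abs_sum_le fun i hi => hb i (hMJ hi)
        _ < S := by rw [hS']; linarith
        _ ≤ q := by
            have : S ≤ q := by omega
            exact_mod_cast this
    exact hsub M hMJ hM (by rw [h0]; exact dvd_zero _)
  · -- the far case
    apply hnear
    obtain ⟨T, hT⟩ : ∃ T, T = ∑ i ∈ J, b i := ⟨_, rfl⟩
    obtain ⟨E, hE⟩ : ∃ E, E = ∑ i ∈ J, b i * ((x i : ℤ) % p - (x j : ℤ) % p) := ⟨_, rfl⟩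
    have hcell : ∀ i ∈ J, |(x i : ℤ) % p - (x j : ℤ) % p| * ((S * S : ℕ) : ℤ) < p := by
      intro i hi
      have h1 := congrArg (fun z => z.2.2) (hκ i hi j hj)
      exact cell_close hp.pos h1
    have hdE : (p : ℤ) ∣ T * (x j : ℤ) + E := by
      have h1 : T * (x j : ℤ) + E = ∑ i ∈ J, b i * (x i : ℤ) - ∑ i ∈ J, b i * (((x i : ℤ) - (x i : ℤ) % p) -
          ((x j : ℤ) - (x j : ℤ) % p)) := by
        rw [hT, hE, sum_mul, ← sum_sub_distrib, ← sum_add_distrib]
        exact sum_congr rfl fun i _ => by ring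
      rw [h1]
      refine dvd_sub hdvd (dvd_sum fun i _ => Dvd.dvd.mul_left ?_ _)
      exact dvd_sub Int.dvd_self_sub_emod Int.dvd_self_sub_emod
    have hEle : S * |E| < p := by
      have h1 : (S * S) * |E| < S * p := by
        calc ((S : ℤ) * S) * |E| ≤ (S * S) * ∑ i ∈ J, |b i| * |(x i : ℤ) % p - (x j : ℤ) % p| := by
              apply mul_le_mul_of_nonneg_left _ (by positivity)
              rw [hE]
              refine (abs_sum_le_sum_abs _ _).trans (le_of_eq ?_)
              exact sum_congr rfl fun i _ => abs_mul _ _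
          _ = ∑ i ∈ J, |b i| * (|(x i : ℤ) % p - (x j : ℤ) % p| * ((S * S : ℕ) : ℤ)) := by
              rw [mul_sum]
              apply sum_congr rfl
              intro i _
              push_cast
              ring
          _ ≤ ∑ i ∈ J, |b i| * p := by
              apply sum_le_sum
              intro i hi
              exact mul_le_mul_of_nonneg_left (hcell i hi).le (abs_nonneg _)
          _ = (∑ i ∈ J, |b i|) * p := by rw [sum_mul]
          _ ≤ (k * K) * p := mul_le_mul_of_nonneg_right hB hp0.le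
          _ < S * p := mul_lt_mul_of_pos_right (by rw [hS']; linarith) hp0
      have h2 : (S : ℤ) * (S * |E|) < S * p := by linarith
      exact lt_of_mul_lt_mul_left h2 (by positivity)
    have hT0 : T ≠ 0 := by
      intro h
      apply hsub J (Subset.refl J) ⟨j, hj⟩
      rw [← hT, h]
      exact dvd_zero _
    have hTle : T.natAbs ≤ S := by
      have h1 : |T| ≤ k * K := by
        rw [hT]
        exact (abs_sum_le_sum_abs _ _).trans hB
      have h2 : ((k * K : ℕ) : ℤ) = (k : ℤ) * K := by push_cast; ring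
      rw [← h2, Int.abs_eq_natAbs] at h1
      have h3 : T.natAbs ≤ k * K := by exact_mod_cast h1
      omega
    rcases lt_or_ge 0 T with h0 | h0
    · refine ⟨T.natAbs, -E, by omega, hTle, by rw [abs_neg]; exact hEle, ?_⟩
      rw [Int.natAbs_of_nonneg h0.le, sub_neg_eq_add]
      exact hdE
    · refine ⟨T.natAbs, E, by omega, hTle, hEle, ?_⟩
      have h1 : ((T.natAbs : ℕ) : ℤ) = -T := by omega
      rw [h1]
      have h2 : -T * (x j : ℤ) - E = -(T * (x j : ℤ) + E) := by ring
      rw [h2, dvd_neg]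
      exact hdE

end Pool.Agent.RadoB
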